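import Pool.Agent.KS6_83.PV.P

/-!
# Almost disjoint families on Parovichenko spaces (MP_bcfe2b_lc)

The library settles Q1: in ZFC there is an almost disjoint family of cardinality `2 ^ ℵ₁` on `ℕ*`.
Here the same is proved for *every* Parovichenko space `X` (without CH there are such spaces which
are not homeomorphic to `ℕ*`), and more generally families of cardinality `2 ^ κ` are obtained on
the Stone space of every atomless `κ`-saturated Boolean algebra with fewer than `2 ^ κ` elements, or
with at most `2 ^< κ` elements, and of every one if `2 ^ μ = 2 ^ κ` for some `μ < κ`.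

The proof is the tree construction of the library file
`Pool.Graph.R_pool_sql_team_39128cda.H.MP_bcfe2b_lc.Tree`, carried out in an abstract Boolean
algebra and for arbitrary heights.
-/

set_option autoImplicit false

universe u

open Cardinal

open Pool.Agent.KS6_83.PV in
/-- The answer to Q1 is yes, with the following generalisation. (1) There is an almost disjoint
family of cardinality `2 ^ ℵ₁` on `ℕ*`. (2) `ℕ*` is a Parovichenko space. (3) Every Parovichenko
space is `ℵ₁`-saturated and has an almost disjoint family of cardinality `2 ^ ℵ₁`. (4) If `κ > ℵ₀`,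
`X` is `κ`-saturated, and `X` has fewer than `2 ^ κ` clopen sets, or at most `2 ^< κ`, or
`2 ^ μ = 2 ^ κ` for some `μ < κ`, then `X` has an almost disjoint family of cardinality `2 ^ κ`. -/
theorem Pool.Agent.Results.MP_bcfe2b_lc.ParovichenkoSpaces.result :
    (∃ 𝒜 : Set (Set NStar), IsADFamily 𝒜 ∧ #𝒜 = 2 ^ (ℵ₁ : Cardinal.{0})) ∧
    IsParovichenko NStar ∧
    (∀ (X : Type u) [TopologicalSpace X], IsParovichenko X →
      IsSaturated ℵ₁ X ∧ ∃ 𝒜 : Set (Set X), IsADFamily 𝒜 ∧ #𝒜 = 2 ^ (ℵ₁ : Cardinal.{u})) ∧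
    ∀ (κ : Cardinal.{u}) (X : Type u) [TopologicalSpace X], ℵ₀ < κ → IsSaturated κ X →
      (#{A : Set X // IsClopen A} < 2 ^ κ ∨
        #{A : Set X // IsClopen A} ≤ (2 : Cardinal.{u}) ^< κ ∨
        ∃ μ < κ, (2 : Cardinal.{u}) ^ μ = 2 ^ κ) →
      ∃ 𝒜 : Set (Set X), IsADFamily 𝒜 ∧ #𝒜 = 2 ^ κ :=
  ⟨parovichenko isParovichenko_NStar, isParovichenko_NStar,
    fun _ _ hX => ⟨saturated hX, parovichenko hX⟩, fun _ _ _ hκ hX hc => main' hκ hX hc⟩
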